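import Pool.Agent.Lib.MP_0b6b0e_gt.ZB.Defs

/-!
Module SL: Gaussian slabs around a hyperplane through the origin.
-/

set_option autoImplicit false

open Set Filter Topology MeasureTheory

open scoped InnerProductSpace

namespace Pool.Agent.Lib.MP_0b6b0e_gt.ZB.H32

section

variable {V : Type} [NormedAddCommGroup V] [InnerProductSpace ℝ V] [FiniteDimensional ℝ V]
    [MeasurableSpace V] [BorelSpace V]

/-- The unit vector of the line spanned by `u`, as an element of the line. -/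
noncomputable def ev (u : V) : (ℝ ∙ u : Submodule ℝ V) :=
  ⟨‖u‖⁻¹ • u, Submodule.smul_mem _ _ (Submodule.mem_span_singleton_self u)⟩

omit [FiniteDimensional ℝ V] [MeasurableSpace V] [BorelSpace V] in
theorem norm_ev {u : V} (hu : u ≠ 0) : ‖ev u‖ = 1 := by
  have h : ‖u‖ ≠ 0 := norm_ne_zero_iff.2 hu
  show ‖‖u‖⁻¹ • u‖ = 1
  rw [norm_smul, norm_inv, norm_norm]
  field_simp

/-- The isometry of `ℝ` with the line spanned by `u`. -/
noncomputable def li {u : V} (hu : u ≠ 0) : ℝ ≃ₗᵢ[ℝ] (ℝ ∙ u : Submodule ℝ V) :=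
  (LinearIsometry.toSpanSingleton ℝ (ℝ ∙ u : Submodule ℝ V) (norm_ev hu)).toLinearIsometryEquiv
    (by rw [finrank_span_singleton hu]; simp)

omit [MeasurableSpace V] [BorelSpace V] in
theorem li_apply {u : V} (hu : u ≠ 0) (s : ℝ) : ((li hu s : (ℝ ∙ u : Submodule ℝ V)) : V) =
    s • (‖u‖⁻¹ • u) := by
  rfl

/-- The measurable equivalence `(s, y) ↦ s u / |u| + y`. -/
noncomputable def me {u : V} (hu : u ≠ 0) : ℝ × (ℝ ∙ u)ᗮ ≃ᵐ V :=
  (MeasurableEquiv.prodCongr (li hu).toHomeomorph.toMeasurableEquiv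
    (MeasurableEquiv.refl (ℝ ∙ u)ᗮ)).trans
      (Submodule.measurableEquivProd (ℝ ∙ u) (0 : V)).symm

theorem me_apply {u : V} (hu : u ≠ 0) (z : ℝ × (ℝ ∙ u)ᗮ) :
    me hu z = z.1 • (‖u‖⁻¹ • u) + (z.2 : V) := by
  show (Submodule.measurableEquivProd (ℝ ∙ u) (0 : V)).symm (li hu z.1, z.2) = _
  rw [Submodule.measurableEquivProd_symm_apply]
  simp [li_apply]

theorem me_pres {u : V} (hu : u ≠ 0) : MeasurePreserving (me hu) := by
  have h1 : MeasurePreserving (li hu).toHomeomorph.toMeasurableEquiv := (li hu).measurePreserving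
  have h2 : MeasurePreserving (MeasurableEquiv.prodCongr (li hu).toHomeomorph.toMeasurableEquiv
      (MeasurableEquiv.refl (ℝ ∙ u)ᗮ)) (volume : Measure (ℝ × (ℝ ∙ u)ᗮ))
      (volume : Measure ((ℝ ∙ u : Submodule ℝ V) × (ℝ ∙ u)ᗮ)) :=
    h1.prod (MeasurePreserving.id _)
  refine h2.trans ?_
  have h3 := Submodule.measurePreserving_measurableEquivProd (ℝ ∙ u) (0 : V)
  rw [InnerProductSpace.euclideanHausdorffMeasure_eq_volume] at h3
  exact h3.symm

theorem inner_me {u : V} (hu : u ≠ 0) (z : ℝ × (ℝ ∙ u)ᗮ) : ⟪u, me hu z⟫_ℝ = ‖u‖ * z.1 := by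
  have h : ‖u‖ ≠ 0 := norm_ne_zero_iff.2 hu
  have h2 : ⟪u, (z.2 : V)⟫_ℝ = 0 :=
    Submodule.mem_orthogonal_singleton_iff_inner_right.1 z.2.2
  rw [me_apply, inner_add_right, h2, inner_smul_right, inner_smul_right,
    real_inner_self_eq_norm_sq]
  field_simp
  ring

theorem norm_me {u : V} (hu : u ≠ 0) (z : ℝ × (ℝ ∙ u)ᗮ) :
    ‖me hu z‖ ^ 2 = z.1 ^ 2 + ‖z.2‖ ^ 2 := by
  have h : ‖u‖ ≠ 0 := norm_ne_zero_iff.2 hu
  have h2 : ⟪u, (z.2 : V)⟫_ℝ = 0 :=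
    Submodule.mem_orthogonal_singleton_iff_inner_right.1 z.2.2
  have h3 : ⟪z.1 • (‖u‖⁻¹ • u), (z.2 : V)⟫_ℝ = 0 := by
    rw [inner_smul_left, inner_smul_left, h2]
    simp
  have h4 : ‖z.1 • (‖u‖⁻¹ • u)‖ ^ 2 = z.1 ^ 2 := by
    rw [norm_smul, norm_smul, norm_inv, norm_norm, inv_mul_cancel₀ h, mul_one, Real.norm_eq_abs,
      sq_abs]
  rw [me_apply, @norm_add_sq_real, h3, h4]
  simp

/-- The integrand after the change of variables. -/
noncomputable def Hf {u : V} (hu : u ≠ 0) (f : V → ℝ) (ε : ℝ) (z : ℝ × (ℝ ∙ u)ᗮ) : ℝ :=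
  f (me hu ((ε / ‖u‖) * z.1, z.2)) * Real.exp (-Real.pi * z.1 ^ 2)

/-- The dominating function. -/
noncomputable def Bf (u : V) (c C : ℝ) (z : ℝ × (ℝ ∙ u)ᗮ) : ℝ :=
  Real.exp (-Real.pi * z.1 ^ 2) * (C * Real.exp (-c * ‖z.2‖ ^ 2))

theorem int_gauss {W : Type} [NormedAddCommGroup W] [InnerProductSpace ℝ W]
    [FiniteDimensional ℝ W] [MeasurableSpace W] [BorelSpace W] {c : ℝ} (hc : 0 < c) :
    Integrable (fun y : W => Real.exp (-c * ‖y‖ ^ 2)) := by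
  have h := GaussianFourier.integrable_cexp_neg_mul_sq_norm_add (V := W) (b := (c : ℂ))
    (by simpa using hc) 0 0
  have h2 := h.norm
  refine h2.congr (Eventually.of_forall fun y => ?_)
  simp only [zero_mul, add_zero, Complex.norm_exp]
  congr 1
  have : (-(c : ℂ) * (‖y‖ : ℂ) ^ 2) = ((-c * ‖y‖ ^ 2 : ℝ) : ℂ) := by push_cast; ring
  rw [this, Complex.ofReal_re]

theorem int_Bf (u : V) {c : ℝ} (C : ℝ) (hc : 0 < c) : Integrable (Bf u c C) := by
  have h1 : Integrable (fun t : ℝ => Real.exp (-Real.pi * t ^ 2)) :=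
    integrable_exp_neg_mul_sq Real.pi_pos
  have h2 : Integrable (fun y : (ℝ ∙ u)ᗮ => C * Real.exp (-c * ‖y‖ ^ 2)) :=
    (int_gauss hc).const_mul C
  exact h1.mul_prod h2

theorem integral_Bf {u : V} (hu : u ≠ 0) {c : ℝ} (C : ℝ) (hc : 0 < c) :
    ∫ z, Bf u c C z = C * (Real.pi / c) ^ (((Module.finrank ℝ V - 1 : ℕ) : ℝ) / 2) := by
  have hn : Module.finrank ℝ (ℝ ∙ u)ᗮ = Module.finrank ℝ V - 1 := by
    have h1 := Submodule.finrank_add_finrank_orthogonal (ℝ ∙ u)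
    rw [finrank_span_singleton hu] at h1
    omega
  have h1 : ∫ t : ℝ, Real.exp (-Real.pi * t ^ 2) = 1 := by
    rw [integral_gaussian, div_self Real.pi_ne_zero, Real.sqrt_one]
  have h2 : ∫ z, Bf u c C z = (∫ t : ℝ, Real.exp (-Real.pi * t ^ 2)) *
      ∫ y : (ℝ ∙ u)ᗮ, C * Real.exp (-c * ‖y‖ ^ 2) :=
    integral_prod_mul (fun t : ℝ => Real.exp (-Real.pi * t ^ 2))
      (fun y : (ℝ ∙ u)ᗮ => C * Real.exp (-c * ‖y‖ ^ 2))
  rw [h2, h1, one_mul, integral_const_mul, GaussianFourier.integral_rexp_neg_mul_sq_norm hc, hn]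

theorem Hf_cont {u : V} (hu : u ≠ 0) {f : V → ℝ} (hf : Continuous f) (ε : ℝ) :
    Continuous (Hf hu f ε) := by
  unfold Hf
  simp only [me_apply]
  fun_prop

theorem Hf_le {u : V} (hu : u ≠ 0) {f : V → ℝ} {c C : ℝ} (hc : 0 < c)
    (hfc : ∀ x, |f x| ≤ C * Real.exp (-c * ‖x‖ ^ 2)) (ε : ℝ) (z : ℝ × (ℝ ∙ u)ᗮ) :
    ‖Hf hu f ε z‖ ≤ Bf u c C z := by
  have hC : 0 ≤ C := by
    have h := hfc 0
    have h1 := abs_nonneg (f 0)
    simp at h
    linarith
  unfold Hf Bf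
  rw [norm_mul, Real.norm_eq_abs, Real.norm_eq_abs, abs_of_pos (Real.exp_pos _), mul_comm]
  refine mul_le_mul_of_nonneg_left ?_ (Real.exp_pos _).le
  refine (hfc _).trans (mul_le_mul_of_nonneg_left ?_ hC)
  refine Real.exp_le_exp.2 ?_
  rw [norm_me]
  have := sq_nonneg (ε / ‖u‖ * z.1)
  nlinarith

theorem Hf_int {u : V} (hu : u ≠ 0) {f : V → ℝ} (hf : Continuous f) {c C : ℝ} (hc : 0 < c)
    (hfc : ∀ x, |f x| ≤ C * Real.exp (-c * ‖x‖ ^ 2)) (ε : ℝ) : Integrable (Hf hu f ε) :=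
  (int_Bf u C hc).mono' (Hf_cont hu hf ε).aestronglyMeasurable
    (Eventually.of_forall (Hf_le hu hc hfc ε))

/-- The integral over the slab, in product form. -/
theorem slab {u : V} (hu : u ≠ 0) {f : V → ℝ} (hf : Continuous f) {c C : ℝ} (hc : 0 < c)
    (hfc : ∀ x, |f x| ≤ C * Real.exp (-c * ‖x‖ ^ 2)) {ε : ℝ} (hε : 0 < ε) :
    ∫ x : V, f x * (ε⁻¹ * Real.exp (-Real.pi * (⟪u, x⟫_ℝ / ε) ^ 2)) =
      ‖u‖⁻¹ * ∫ z, Hf hu f ε z := by
  have hun : 0 < ‖u‖ := norm_pos_iff.2 hu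
  have hC : 0 ≤ C := by
    have h := hfc 0
    have h1 := abs_nonneg (f 0)
    simp at h
    linarith
  set G : ℝ × (ℝ ∙ u)ᗮ → ℝ := fun z =>
    f (me hu z) * (ε⁻¹ * Real.exp (-Real.pi * (‖u‖ * z.1 / ε) ^ 2)) with hG
  have hGc : Continuous G := by
    rw [hG]
    simp only [me_apply]
    fun_prop
  have h1 : ∫ x : V, f x * (ε⁻¹ * Real.exp (-Real.pi * (⟪u, x⟫_ℝ / ε) ^ 2)) = ∫ z, G z := by
    rw [← (me_pres hu).integral_comp']
    refine integral_congr_ae (Eventually.of_forall fun z => ?_)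
    simp only [hG, inner_me]
  have hGi : Integrable G := by
    have h2 : Integrable (fun t : ℝ => ε⁻¹ * Real.exp (-(Real.pi * (‖u‖ / ε) ^ 2) * t ^ 2)) :=
      (integrable_exp_neg_mul_sq (by positivity)).const_mul _
    have h3 : Integrable (fun y : (ℝ ∙ u)ᗮ => C * Real.exp (-c * ‖y‖ ^ 2)) :=
      (int_gauss hc).const_mul C
    refine (h2.mul_prod h3).mono' hGc.aestronglyMeasurable (Eventually.of_forall fun z => ?_)
    have h4 : ‖G z‖ = |f (me hu z)| * (ε⁻¹ * Real.exp (-Real.pi * (‖u‖ * z.1 / ε) ^ 2)) := by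
      rw [hG]
      simp only
      rw [norm_mul, Real.norm_eq_abs, Real.norm_eq_abs,
        abs_of_nonneg (a := ε⁻¹ * Real.exp (-Real.pi * (‖u‖ * z.1 / ε) ^ 2)) (by positivity)]
    have h5 : -Real.pi * (‖u‖ * z.1 / ε) ^ 2 = -(Real.pi * (‖u‖ / ε) ^ 2) * z.1 ^ 2 := by
      field_simp
    rw [h4, h5, mul_comm]
    refine mul_le_mul_of_nonneg_left ?_ (by positivity)
    refine (hfc _).trans (mul_le_mul_of_nonneg_left ?_ hC)
    refine Real.exp_le_exp.2 ?_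
    rw [norm_me]
    have := sq_nonneg z.1
    nlinarith
  have hHi := Hf_int hu hf hc hfc ε
  have e1 : ∫ z, G z = ∫ y : (ℝ ∙ u)ᗮ, ∫ s : ℝ, G (s, y) := integral_prod_symm G hGi
  have e2 : ∫ z, Hf hu f ε z = ∫ y : (ℝ ∙ u)ᗮ, ∫ s : ℝ, Hf hu f ε (s, y) :=
    integral_prod_symm _ hHi
  rw [h1, e1, e2, ← integral_const_mul]
  refine integral_congr_ae (Eventually.of_forall fun y => ?_)
  have h6 : ∀ s : ℝ, Hf hu f ε (s, y) = ε * G ((ε / ‖u‖) * s, y) := by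
    intro s
    simp only [Hf, hG]
    have h7 : ‖u‖ * (ε / ‖u‖ * s) / ε = s := by
      field_simp
    rw [h7]
    field_simp
  have h8 : ∫ s : ℝ, G ((ε / ‖u‖) * s, y) = |(ε / ‖u‖)⁻¹| • ∫ s : ℝ, G (s, y) :=
    Measure.integral_comp_mul_left (fun s => G (s, y)) (ε / ‖u‖)
  simp only [h6]
  rw [integral_const_mul, h8, smul_eq_mul, abs_of_pos (by positivity)]
  field_simp

end

/-- Module SL. -/
theorem sl : SLStatement := by
  intro V _ _ _ _ _ f hf hex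
  obtain ⟨c, C, hc, hfc⟩ := hex
  refine ⟨?_, ?_⟩
  · intro u hu
    have h1 : Tendsto (fun ε : ℝ => ∫ z, Hf hu f ε z) (𝓝[>] 0) (𝓝 (∫ z, Hf hu f 0 z)) := by
      refine tendsto_integral_filter_of_dominated_convergence (Bf u c C) ?_ ?_ (int_Bf u C hc) ?_
      · exact Eventually.of_forall fun ε => (Hf_cont hu hf ε).aestronglyMeasurable
      · exact Eventually.of_forall fun ε => Eventually.of_forall (Hf_le hu hc hfc ε)
      · refine Eventually.of_forall fun z => ?_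
        have h2 : Continuous (fun ε : ℝ => Hf hu f ε z) := by
          unfold Hf
          simp only [me_apply]
          fun_prop
        exact (h2.tendsto 0).mono_left nhdsWithin_le_nhds
    have h3 : ∫ z, Hf hu f 0 z = ∫ y : (ℝ ∙ u)ᗮ, f y := by
      have h4 : ∫ t : ℝ, Real.exp (-Real.pi * t ^ 2) = 1 := by
        rw [integral_gaussian, div_self Real.pi_ne_zero, Real.sqrt_one]
      have h5 : ∀ z : ℝ × (ℝ ∙ u)ᗮ, Hf hu f 0 z = Real.exp (-Real.pi * z.1 ^ 2) * f z.2 := by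
        intro z
        simp [Hf, me_apply, mul_comm]
      simp only [h5]
      have h6 : ∫ z : ℝ × (ℝ ∙ u)ᗮ, Real.exp (-Real.pi * z.1 ^ 2) * f z.2 =
          (∫ t : ℝ, Real.exp (-Real.pi * t ^ 2)) * ∫ y : (ℝ ∙ u)ᗮ, f y :=
        integral_prod_mul (fun t : ℝ => Real.exp (-Real.pi * t ^ 2))
          (fun y : (ℝ ∙ u)ᗮ => f y)
      rw [h6, h4, one_mul]
    rw [h3] at h1
    refine (h1.const_mul ‖u‖⁻¹).congr' ?_
    filter_upwards [self_mem_nhdsWithin] with ε hε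
    exact (slab hu hf hc hfc hε).symm
  · refine ⟨C * (Real.pi / c) ^ (((Module.finrank ℝ V - 1 : ℕ) : ℝ) / 2), fun u hu ε hε => ?_⟩
    have hfa : Continuous (fun x => |f x|) := hf.abs
    have hfc' : ∀ x, |(|f x|)| ≤ C * Real.exp (-c * ‖x‖ ^ 2) := by
      intro x
      rw [abs_abs]
      exact hfc x
    rw [slab hu hfa hc hfc' hε, mul_comm]
    refine mul_le_mul_of_nonneg_right ?_ (by positivity)
    rw [← integral_Bf hu C hc]
    refine integral_mono (Hf_int hu hfa hc hfc' ε) (int_Bf u C hc) fun z => ?_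
    exact (le_abs_self _).trans (Hf_le hu hc hfc' ε z)

end Pool.Agent.Lib.MP_0b6b0e_gt.ZB.H32
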